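import Pool.Agent.Q185.DR.Ring

set_option autoImplicit false
set_option linter.unusedSimpArgs false
set_option linter.unusedVariables false

/-! # The metric `dt dy + dx² + x⁴ dy²` is nowhere conformal to `dt dy + dx² + (x³ + h(y) x) dy²`

Algebraic part of the argument in the differential ring of smooth functions. -/

namespace Pool.Agent.Q185.CKF

open Pool.Agent.Q185.DR

variable {U : TopologicalSpace.Opens (Fin 3 → ℝ)}

/-- Elements of the ring that are nowhere zero cancel. -/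
theorem cancel {a f : Sm U} (ha : ∀ q, a.1 q ≠ 0) (h : a * f = 0) : f = 0 := by
  apply Sm_ext
  intro q
  have h1 : a.1 q * f.1 q = 0 := by
    have := congrFun (congrArg Subtype.val h) q
    exact this
  exact (mul_eq_zero.mp h1).resolve_left (ha q)

theorem sq_eq_zero' {f : Sm U} (h : f * f = 0) : f = 0 := by
  apply Sm_ext
  intro q
  have h1 : f.1 q * f.1 q = 0 := congrFun (congrArg Subtype.val h) q
  exact mul_self_eq_zero.mp h1

/-- Solutions of the conformal Killing equation. -/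
theorem killing_step {A Kx Kt l : Sm U} (hx : ∀ q : U, (X 0 : Sm U).1 q ≠ 0)
    (tt : D 2 A = 0) (xx : 2 * D 0 Kx = l) (tx : D 0 A + 2 * D 2 Kx = 0)
    (ty : D 1 A + D 2 Kt = l)
    (xy : 2 * D 1 Kx + D 0 Kt + 2 * (X 0) ^ 4 * D 0 A = 0)
    (yy : Kx * (4 * (X 0) ^ 3) + D 1 Kt + 2 * (X 0) ^ 4 * D 1 A = l * (X 0) ^ 4)
    (nul : Kx * Kx + A * Kt + (X 0) ^ 4 * (A * A) = 0) :
    A = 0 ∧ Kx = 0 ∧ D 0 Kt = 0 := by
  set x : Sm U := X 0 with hxdef
  have dx0 : D 0 x = 1 := by rw [hxdef, D_X]; rfl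
  have dx1 : D 1 x = 0 := by rw [hxdef, D_X]; rfl
  have dx2 : D 2 x = 0 := by rw [hxdef, D_X]; rfl
  have half : ∀ f : Sm U, 2 * f = 0 → f = 0 := fun f hf =>
    cancel (a := 2) (fun q => by change (2 : ℝ) ≠ 0; norm_num) hf
  -- derivatives of `A` with a `t`
  have e1 : D 2 (D 0 A) = 0 := by rw [D_comm, tt, D_zero]
  have e2 : D 2 (D 1 A) = 0 := by rw [D_comm, tt, D_zero]
  have e3 : D 2 (D 0 (D 0 A)) = 0 := by rw [D_comm, e1, D_zero]
  have e4 : D 2 (D 0 (D 1 A)) = 0 := by rw [D_comm, e2, D_zero]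
  have e5 : D 2 (D 1 (D 1 A)) = 0 := by rw [D_comm, e2, D_zero]
  have lt : D 2 l = -D 0 (D 0 A) := by
    have h1 := congrArg (D 0) tx
    simp only [D_add, D_mul, D_ofNat, D_zero, zero_mul, zero_add] at h1
    rw [← xx]
    simp only [D_mul, D_ofNat, zero_mul, zero_add]
    rw [D_comm 2 0]
    linear_combination h1
  have ktt : D 2 Kt = l - D 1 A := by linear_combination ty
  -- the `t`-derivative of the `yy` equation
  have s1 : -(D 0 A * (2 * x ^ 3)) + D 1 l - D 1 (D 1 A) + D 0 (D 0 A) * x ^ 4 = 0 := by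
    have h1 := congrArg (D 2) yy
    simp only [D_add, D_mul, D_pow, D_ofNat, dx2, lt, e2, mul_zero, zero_mul, zero_add,
      add_zero] at h1
    rw [D_comm 2 1, ktt, D_sub] at h1
    linear_combination h1 + (2 * x ^ 3) * (- tx)
  have a1 : D 1 (D 0 (D 0 A)) = 0 := by
    have h1 := congrArg (D 2) s1
    simp only [D_add, D_sub, D_neg, D_mul, D_pow, D_ofNat, dx2, e1, e3, e5, mul_zero, zero_mul,
      zero_add, add_zero, neg_zero, sub_zero, D_zero] at h1
    rw [D_comm 2 1, lt, D_neg, neg_eq_zero] at h1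
    exact h1
  have s2 : D 0 l = 2 * D 0 (D 1 A) := by
    have h1 := congrArg (D 2) xy
    simp only [D_add, D_mul, D_pow, D_ofNat, dx2, e1, mul_zero, zero_mul,
      zero_add, add_zero, D_zero] at h1
    rw [D_comm 2 1, D_comm 2 0 Kt, ktt, D_sub] at h1
    have h2 := congrArg (D 1) tx
    simp only [D_add, D_mul, D_ofNat, D_zero, zero_mul, zero_add] at h2
    rw [D_comm 1 0 A] at h2
    linear_combination h1 - h2
  have a2 : D 0 (D 0 (D 0 A)) = 0 := by
    have h1 := congrArg (D 2) s2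
    simp only [D_mul, D_ofNat, e4, mul_zero, zero_mul, zero_add, add_zero] at h1
    rw [D_comm 2 0, lt, D_neg, neg_eq_zero] at h1
    exact h1
  have s3 : D 0 (D 0 A) * (2 * x ^ 3) - D 0 A * (6 * x ^ 2) + D 0 (D 1 (D 1 A)) = 0 := by
    have h1 := congrArg (D 0) s1
    simp only [D_add, D_sub, D_neg, D_mul, D_pow, D_ofNat, dx0, a2, mul_zero, zero_mul,
      zero_add, add_zero, D_zero] at h1
    rw [D_comm 0 1 l, s2, D_mul, D_ofNat, D_comm 1 0 (D 1 A)] at h1
    push_cast at h1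
    norm_num at h1
    linear_combination h1
  have s4 : D 0 A * x = 0 := by
    have h1 := congrArg (D 0) s3
    have h2 : D 0 (D 0 (D 1 (D 1 A))) = 0 := by
      rw [D_comm 0 1 (D 1 A), D_comm 0 1 (D 0 (D 1 A)), D_comm 0 1 A, D_comm 0 1 (D 0 A), a1,
        D_zero]
    simp only [D_add, D_sub, D_mul, D_pow, D_ofNat, dx0, a2, h2, mul_zero, zero_mul,
      zero_add, add_zero, D_zero] at h1
    push_cast at h1
    norm_num at h1
    have h3 : (12 : Sm U) * (D 0 A * x) = 0 := by linear_combination -h1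
    exact cancel (a := 12) (fun q => by change (12 : ℝ) ≠ 0; norm_num) h3
  have a3 : D 0 A = 0 := cancel hx (by linear_combination s4)
  -- second part
  have b1 : D 2 l = 0 := by rw [lt, a3, D_zero, neg_zero]
  have b2 : D 0 l = 0 := by rw [s2, D_comm, a3, D_zero, mul_zero]
  have b3 : D 0 Kt = -(2 * D 1 Kx) := by
    rw [a3] at xy
    linear_combination xy
  have c1 : Kx * l - A * (2 * D 1 Kx) + 4 * x ^ 3 * (A * A) = 0 := by
    have h1 := congrArg (D 0) nul
    simp only [D_add, D_mul, D_pow, dx0, a3, b3, mul_zero, zero_mul,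
      zero_add, add_zero, D_zero] at h1
    push_cast at h1
    norm_num at h1
    linear_combination h1 - Kx * xx
  have c2 : l * l - 2 * (A * D 1 l) + 24 * x ^ 2 * (A * A) = 0 := by
    have h1 := congrArg (D 0) c1
    simp only [D_add, D_sub, D_mul, D_pow, D_ofNat, dx0, a3, b2, mul_zero, zero_mul,
      zero_add, add_zero, D_zero] at h1
    rw [D_comm 0 1 Kx] at h1
    have h2 := congrArg (D 1) xx
    simp only [D_mul, D_ofNat, zero_mul, zero_add] at h2
    push_cast at h1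
    norm_num at h1
    linear_combination 2 * h1 - l * xx + 2 * A * h2
  have c3 : x * (A * A) = 0 := by
    have h1 := congrArg (D 0) c2
    simp only [D_add, D_sub, D_mul, D_pow, D_ofNat, dx0, a3, b2, D_comm 0 1 l, mul_zero, zero_mul,
      zero_add, add_zero, D_zero] at h1
    push_cast at h1
    norm_num at h1
    have h3 : (48 : Sm U) * (x * (A * A)) = 0 := by linear_combination h1
    exact cancel (a := 48) (fun q => by change (48 : ℝ) ≠ 0; norm_num) h3
  have c4 : A = 0 := sq_eq_zero' (cancel hx c3)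
  have c5 : Kx = 0 := by
    apply sq_eq_zero'
    rw [c4] at nul
    linear_combination nul
  refine ⟨c4, c5, ?_⟩
  rw [b3, c5, D_zero]
  ring

/-- The conformal relation between `dt dy + dx² + x⁴ dy²` and
`dT dQ + dP² + (P³ + h(Q) P) dQ²`. -/
structure Rel (P Q T E Hh Hd : Sm U) : Prop where
  dH : ∀ i, D i Hh = Hd * D i Q
  xx : D 0 T * D 0 Q + D 0 P * D 0 P + (P ^ 3 + Hh * P) * (D 0 Q * D 0 Q) = E
  yy : D 1 T * D 1 Q + D 1 P * D 1 P + (P ^ 3 + Hh * P) * (D 1 Q * D 1 Q) = E * (X 0) ^ 4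
  tt : D 2 T * D 2 Q + D 2 P * D 2 P + (P ^ 3 + Hh * P) * (D 2 Q * D 2 Q) = 0
  xy : D 0 T * D 1 Q + D 1 T * D 0 Q + 2 * (D 0 P * D 1 P) +
    2 * ((P ^ 3 + Hh * P) * (D 0 Q * D 1 Q)) = 0
  xt : D 0 T * D 2 Q + D 2 T * D 0 Q + 2 * (D 0 P * D 2 P) +
    2 * ((P ^ 3 + Hh * P) * (D 0 Q * D 2 Q)) = 0
  yt : D 1 T * D 2 Q + D 2 T * D 1 Q + 2 * (D 1 P * D 2 P) +
    2 * ((P ^ 3 + Hh * P) * (D 1 Q * D 2 Q)) = E

/-- The final contradiction once `Q` depends on `y` only. -/
theorem final_step {P Q T E Hh Hd : Sm U} (h : Rel P Q T E Hh Hd) (hE : ∀ q : U, E.1 q ≠ 0)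
    (Qx : D 0 Q = 0) (Qt : D 2 Q = 0) (Ex : D 0 E = 0) (q : U) : False := by
  obtain ⟨dH, xx, yy, tt, xy, xt, yt⟩ := h
  set x : Sm U := X 0 with hxdef
  have dx0 : D 0 x = 1 := by rw [hxdef, D_X]; rfl
  have dx1 : D 1 x = 0 := by rw [hxdef, D_X]; rfl
  have hc : ∀ (k : ℕ) [k.AtLeastTwo] (f : Sm U), ofNat(k) * f = 0 → f = 0 := by
    intro k _ f hf
    refine cancel (a := ofNat(k)) (fun q => ?_) hf
    change ((OfNat.ofNat k : ℕ) : ℝ) ≠ 0
    have : (OfNat.ofNat k : ℕ) ≠ 0 := (Nat.AtLeastTwo.prop (n := k)).trans_lt' (by norm_num) |>.ne'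
    exact_mod_cast this
  rw [Qx] at xx xy xt
  rw [Qt] at tt xt yt
  have Pt : D 2 P = 0 := sq_eq_zero' (by linear_combination tt)
  rw [Pt] at yt
  have hPx : ∀ q : U, (D 0 P).1 q ≠ 0 := by
    intro q hq
    apply hE q
    have h1 : D 0 P * D 0 P = E := by linear_combination xx
    have h2 : (D 0 P).1 q * (D 0 P).1 q = E.1 q := congrFun (congrArg Subtype.val h1) q
    rw [← h2, hq, zero_mul]
  have hQy : ∀ q : U, (D 1 Q).1 q ≠ 0 := by
    intro q hq
    apply hE q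
    have h1 : D 2 T * D 1 Q = E := by linear_combination yt
    have h2 : (D 2 T).1 q * (D 1 Q).1 q = E.1 q := congrFun (congrArg Subtype.val h1) q
    rw [← h2, hq, mul_zero]
  have Pxx : D 0 (D 0 P) = 0 := by
    have h1 : D 0 P * D 0 P = E := by linear_combination xx
    have h2 := congrArg (D 0) h1
    rw [D_mul, Ex] at h2
    exact cancel hPx (hc 2 _ (by linear_combination h2))
  have Qxy : D 0 (D 1 Q) = 0 := by rw [D_comm, Qx, D_zero]
  have Qxyy : D 0 (D 1 (D 1 Q)) = 0 := by rw [D_comm, Qxy, D_zero]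
  have Pxxy : D 0 (D 0 (D 1 P)) = 0 := by rw [D_comm 0 1 P, D_comm 0 1 (D 0 P), Pxx, D_zero]
  have Pxxyy : D 0 (D 0 (D 1 (D 1 P))) = 0 := by
    rw [D_comm 0 1 (D 1 P), D_comm 0 1 (D 0 (D 1 P)), Pxxy, D_zero]
  have Hx : D 0 Hh = 0 := by rw [dH, Qx, mul_zero]
  -- the `xy` equation
  have f1 : D 0 T * D 1 Q + 2 * (D 0 P * D 1 P) = 0 := by linear_combination xy
  have f2 : D 0 (D 1 T) * D 1 Q + D 0 T * D 1 (D 1 Q) + 2 * (D 0 (D 1 P) * D 1 P) +
      2 * (D 0 P * D 1 (D 1 P)) = 0 := by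
    have h1 := congrArg (D 1) f1
    simp only [D_add, D_mul, D_ofNat, D_zero, zero_mul, zero_add] at h1
    rw [D_comm 1 0 T, D_comm 1 0 P] at h1
    linear_combination h1
  have f3 : D 0 (D 0 T) * D 1 Q + 2 * (D 0 P * D 0 (D 1 P)) = 0 := by
    have h1 := congrArg (D 0) f1
    simp only [D_add, D_mul, D_ofNat, D_zero, zero_mul, zero_add, Qxy, Pxx, mul_zero,
      add_zero] at h1
    exact h1
  have f4 : D 0 (D 0 (D 0 T)) = 0 := by
    have h1 := congrArg (D 0) f3
    simp only [D_add, D_mul, D_ofNat, D_zero, zero_mul, zero_add, Qxy, Pxx, mul_zero,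
      add_zero, Pxxy] at h1
    exact cancel hQy (by linear_combination h1)
  -- the `yy` equation
  have g1 : D 0 (D 1 T) * D 1 Q + 2 * (D 0 (D 1 P) * D 1 P) +
      (3 * P ^ 2 * D 0 P + Hh * D 0 P) * (D 1 Q * D 1 Q) = E * (4 * x ^ 3) := by
    have h1 := congrArg (D 0) yy
    simp only [D_add, D_mul, D_pow, D_ofNat, D_zero, zero_mul, zero_add, Qxy, mul_zero,
      add_zero, Ex, dx0, Hx] at h1
    push_cast at h1
    norm_num at h1
    linear_combination h1
  have g2 : (3 * P ^ 2 * D 0 P + Hh * D 0 P) * (D 1 Q * D 1 Q) - D 0 T * D 1 (D 1 Q) -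
      2 * (D 0 P * D 1 (D 1 P)) = E * (4 * x ^ 3) := by
    linear_combination g1 - f2
  have g3 : 6 * P * (D 0 P * D 0 P) * (D 1 Q * D 1 Q) - D 0 (D 0 T) * D 1 (D 1 Q) -
      2 * (D 0 P * D 0 (D 1 (D 1 P))) = E * (12 * x ^ 2) := by
    have h1 := congrArg (D 0) g2
    simp only [D_add, D_sub, D_mul, D_pow, D_ofNat, D_zero, zero_mul, zero_add, Qxy, Qxyy,
      mul_zero, add_zero, Ex, dx0, Hx, Pxx] at h1
    push_cast at h1
    norm_num at h1
    linear_combination h1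
  have g4 : 6 * (D 0 P * D 0 P * D 0 P) * (D 1 Q * D 1 Q) = E * (24 * x) := by
    have h1 := congrArg (D 0) g3
    simp only [D_add, D_sub, D_mul, D_pow, D_ofNat, D_zero, zero_mul, zero_add, Qxy, Qxyy,
      mul_zero, add_zero, Ex, dx0, Hx, Pxx, f4, Pxxyy, sub_zero] at h1
    push_cast at h1
    norm_num at h1
    linear_combination h1
  have g5 : 24 * E = 0 := by
    have h1 := congrArg (D 0) g4
    simp only [D_add, D_sub, D_mul, D_pow, D_ofNat, D_zero, zero_mul, zero_add, Qxy, Qxyy,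
      mul_zero, add_zero, Ex, dx0, Hx, Pxx, f4, Pxxyy, sub_zero, mul_one] at h1
    linear_combination -h1
  have g6 : E = 0 := hc 24 _ g5
  apply hE q
  rw [g6]
  rfl

end Pool.Agent.Q185.CKF
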