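import Mathlib

set_option autoImplicit false

/-! # Coordinate tensor calculus on `ℝ³`: Schouten and Cotton tensors, conformal Killing fields

Points of `ℝ³` are functions `p : Fin 3 → ℝ`, with coordinates `x = p 0`, `y = p 1`, `t = p 2`. -/

namespace Pool.Agent.Q185.CKF

open scoped ContDiff

/-- The `i`-th partial derivative of `f` at `p`. -/
noncomputable def pd (i : Fin 3) (f : (Fin 3 → ℝ) → ℝ) (p : Fin 3 → ℝ) : ℝ :=
  fderiv ℝ f p (Pi.single i 1)

/-- A field of `3 × 3` matrices on `ℝ³`, the components `g_ij` of a symmetric `2`-tensor. -/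
abbrev Field := (Fin 3 → ℝ) → Matrix (Fin 3) (Fin 3) ℝ

/-- `g` is a smooth Lorentzian metric on `ℝ³`: its components are smooth, and at every point it is
symmetric and congruent to `diag (-1, 1, 1)`. -/
def IsLorentzian (g : Field) : Prop :=
  (∀ i j, ContDiff ℝ ∞ fun p => g p i j) ∧
    ∀ p, (g p).IsSymm ∧ ∃ A : Matrix (Fin 3) (Fin 3) ℝ, IsUnit A.det ∧
      A.transpose * g p * A = Matrix.diagonal ![-1, 1, 1]

/-- The Christoffel symbol `Γ^k_ij` of `g`. -/
noncomputable def christoffel (g : Field) (k i j : Fin 3) (p : Fin 3 → ℝ) : ℝ :=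
  1 / 2 * ∑ l, (g p)⁻¹ k l * (pd i (fun q => g q j l) p + pd j (fun q => g q i l) p -
    pd l (fun q => g q i j) p)

/-- The Ricci tensor `Ric_ij` of `g`. -/
noncomputable def ricci (g : Field) (i j : Fin 3) (p : Fin 3 → ℝ) : ℝ :=
  ∑ k, (pd k (christoffel g k i j) p - pd j (christoffel g k i k) p +
    ∑ l, (christoffel g k k l p * christoffel g l i j p -
      christoffel g k j l p * christoffel g l i k p))

/-- The scalar curvature of `g`. -/
noncomputable def scal (g : Field) (p : Fin 3 → ℝ) : ℝ :=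
  ∑ i, ∑ j, (g p)⁻¹ i j * ricci g i j p

/-- The Schouten tensor `P_ij = Ric_ij - (1/4) Scal g_ij`. -/
noncomputable def schouten (g : Field) (i j : Fin 3) (p : Fin 3 → ℝ) : ℝ :=
  ricci g i j p - 1 / 4 * scal g p * g p i j

/-- The covariant derivative `∇_a P_bc` of the Schouten tensor. -/
noncomputable def covSchouten (g : Field) (a b c : Fin 3) (p : Fin 3 → ℝ) : ℝ :=
  pd a (schouten g b c) p -
    ∑ l, (christoffel g l a b p * schouten g l c p + christoffel g l a c p * schouten g b l p)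

/-- The Cotton tensor `Y_cab = ∇_a P_bc - ∇_b P_ac`. -/
noncomputable def cotton (g : Field) (c a b : Fin 3) (p : Fin 3 → ℝ) : ℝ :=
  covSchouten g a b c p - covSchouten g b a c p

/-- The Cotton tensor does not vanish at `p`. -/
def CottonNonzeroAt (g : Field) (p : Fin 3 → ℝ) : Prop := ∃ c a b, cotton g c a b p ≠ 0

/-- The vector field `k` is a smooth conformal Killing field: `L_k g = l g` for a smooth function
`l`. -/
def IsConformalKilling (g : Field) (k : (Fin 3 → ℝ) → Fin 3 → ℝ) : Prop :=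
  ContDiff ℝ ∞ k ∧ ∃ l : (Fin 3 → ℝ) → ℝ, ContDiff ℝ ∞ l ∧ ∀ p i j,
    (∑ m, k p m * pd m (fun q => g q i j) p) + (∑ m, g p m j * pd i (fun q => k q m) p) +
      (∑ m, g p i m * pd j (fun q => k q m) p) = l p * g p i j

/-- The vector field `k` is a normal conformal Killing field: moreover `Y_abr k^r = 0`. -/
def IsNormalConformalKilling (g : Field) (k : (Fin 3 → ℝ) → Fin 3 → ℝ) : Prop :=
  IsConformalKilling g k ∧ ∀ p a b, ∑ r, cotton g a b r p * k p r = 0

/-- Some open neighbourhood of `p` is mapped by a diffeomorphism `φ` onto an open subset of `ℝ³`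
with `φ^* g' = e^{2u} g` for a smooth function `u`. -/
def LocallyConformalAt (g g' : Field) (p : Fin 3 → ℝ) : Prop :=
  ∃ φ : OpenPartialHomeomorph (Fin 3 → ℝ) (Fin 3 → ℝ), p ∈ φ.source ∧
    ContDiffOn ℝ ∞ φ φ.source ∧ ContDiffOn ℝ ∞ φ.symm φ.target ∧
    ∃ u : (Fin 3 → ℝ) → ℝ, ContDiffOn ℝ ∞ u φ.source ∧
      ∀ q ∈ φ.source, ∀ v w : Fin 3 → ℝ,
        fderiv ℝ φ q v ⬝ᵥ (g' (φ q)).mulVec (fderiv ℝ φ q w) =
          Real.exp (2 * u q) * (v ⬝ᵥ (g q).mulVec w)

/-- The metric `g_h = (1/2)(dt⊗dy + dy⊗dt) + dx² + (x³ + h(y) x) dy²` in the coordinates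
`(x, y, t)`. -/
noncomputable def gh (h : ℝ → ℝ) : Field := fun p =>
  !![1, 0, 0; 0, p 0 ^ 3 + h (p 1) * p 0, 1 / 2; 0, 1 / 2, 0]

end Pool.Agent.Q185.CKF
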