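import Pool.Agent.Q185.CKF.Alg

set_option autoImplicit false
set_option linter.unusedSimpArgs false
set_option linter.unusedVariables false

/-! # Pulling back the Killing field of `g_h` -/

namespace Pool.Agent.Q185.CKF

open Pool.Agent.Q185.DR

variable {U : TopologicalSpace.Opens (Fin 3 → ℝ)}

/-- Twice the pulled back metric. -/
noncomputable def GG (P Q T W : Sm U) (i j : Fin 3) : Sm U :=
  D i T * D j Q + D j T * D i Q + 2 * (D i P * D j P) + 2 * (W * (D i Q * D j Q))

theorem lie (P Q T Hh Hd K0 K1 K2 : Sm U) (dH : ∀ i, D i Hh = Hd * D i Q)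
    (k1 : K0 * D 0 P + K1 * D 1 P + K2 * D 2 P = 0)
    (k2 : K0 * D 0 Q + K1 * D 1 Q + K2 * D 2 Q = 0)
    (k3 : K0 * D 0 T + K1 * D 1 T + K2 * D 2 T = 1) (i j : Fin 3) :
    K0 * D 0 (GG P Q T (P ^ 3 + Hh * P) i j) + K1 * D 1 (GG P Q T (P ^ 3 + Hh * P) i j) +
      K2 * D 2 (GG P Q T (P ^ 3 + Hh * P) i j) +
      (GG P Q T (P ^ 3 + Hh * P) 0 j * D i K0 + GG P Q T (P ^ 3 + Hh * P) 1 j * D i K1 +
        GG P Q T (P ^ 3 + Hh * P) 2 j * D i K2) +
      (GG P Q T (P ^ 3 + Hh * P) i 0 * D j K0 + GG P Q T (P ^ 3 + Hh * P) i 1 * D j K1 +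
        GG P Q T (P ^ 3 + Hh * P) i 2 * D j K2) = 0 := by
  have d1 : ∀ i, (D i K0 * D 0 P + D i K1 * D 1 P + D i K2 * D 2 P) +
      (K0 * D 0 (D i P) + K1 * D 1 (D i P) + K2 * D 2 (D i P)) = 0 := by
    intro i
    have h := congrArg (D i) k1
    simp only [D_add, D_mul, D_zero] at h
    rw [D_comm i 0 P, D_comm i 1 P, D_comm i 2 P] at h
    linear_combination h
  have d2 : ∀ i, (D i K0 * D 0 Q + D i K1 * D 1 Q + D i K2 * D 2 Q) +
      (K0 * D 0 (D i Q) + K1 * D 1 (D i Q) + K2 * D 2 (D i Q)) = 0 := by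
    intro i
    have h := congrArg (D i) k2
    simp only [D_add, D_mul, D_zero] at h
    rw [D_comm i 0 Q, D_comm i 1 Q, D_comm i 2 Q] at h
    linear_combination h
  have d3 : ∀ i, (D i K0 * D 0 T + D i K1 * D 1 T + D i K2 * D 2 T) +
      (K0 * D 0 (D i T) + K1 * D 1 (D i T) + K2 * D 2 (D i T)) = 0 := by
    intro i
    have h := congrArg (D i) k3
    simp only [D_add, D_mul, D_one] at h
    rw [D_comm i 0 T, D_comm i 1 T, D_comm i 2 T] at h
    linear_combination h
  have hW : K0 * D 0 (P ^ 3 + Hh * P) + K1 * D 1 (P ^ 3 + Hh * P) +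
      K2 * D 2 (P ^ 3 + Hh * P) = 0 := by
    simp only [D_add, D_mul, D_pow, dH]
    push_cast
    norm_num
    linear_combination (3 * P ^ 2 + Hh) * k1 + P * Hd * k2
  set W := P ^ 3 + Hh * P with hWdef
  unfold GG
  simp only [D_add, D_mul, D_ofNat, zero_mul, zero_add]
  linear_combination 2 * D j P * d1 i + 2 * D i P * d1 j + D j T * d2 i + D i T * d2 j +
    D j Q * d3 i + D i Q * d3 j + 2 * W * D j Q * d2 i + 2 * W * D i Q * d2 j +
    2 * D i Q * D j Q * hW

theorem inverse {P Q T E Hh Hd : Sm U} (h : Rel P Q T E Hh Hd) {F : Sm U} (hF : F * (2 * E) = 1) :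
    F * D 0 Q * D 0 P + F * (2 * D 2 Q) * D 1 P +
      F * (2 * D 1 Q - 4 * (X 0) ^ 4 * D 2 Q) * D 2 P = 0 ∧
    F * D 0 Q * D 0 Q + F * (2 * D 2 Q) * D 1 Q +
      F * (2 * D 1 Q - 4 * (X 0) ^ 4 * D 2 Q) * D 2 Q = 0 ∧
    F * D 0 Q * D 0 T + F * (2 * D 2 Q) * D 1 T +
      F * (2 * D 1 Q - 4 * (X 0) ^ 4 * D 2 Q) * D 2 T = 1 := by
  obtain ⟨dH, xx, yy, tt, xy, xt, yt⟩ := h
  set x : Sm U := X 0 with hxdef
  set W : Sm U := P ^ 3 + Hh * P with hW
  let J : Matrix (Fin 3) (Fin 3) (Sm U) :=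
    !![D 0 P, D 1 P, D 2 P; D 0 Q, D 1 Q, D 2 Q; D 0 T, D 1 T, D 2 T]
  let M : Matrix (Fin 3) (Fin 3) (Sm U) :=
    !![F * (2 * D 0 P), F * (2 * W * D 0 Q + D 0 T), F * D 0 Q;
       F * (4 * D 2 P), F * (2 * (2 * W * D 2 Q + D 2 T)), F * (2 * D 2 Q);
       F * (4 * D 1 P - 8 * x ^ 4 * D 2 P),
       F * (2 * (2 * W * D 1 Q + D 1 T) - 4 * x ^ 4 * (2 * W * D 2 Q + D 2 T)),
       F * (2 * D 1 Q - 4 * x ^ 4 * D 2 Q)]
  have hMJ : M * J = 1 := by
    refine Matrix.ext fun i j => ?_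
    fin_cases i <;> fin_cases j <;>
      simp only [M, J, Matrix.mul_apply, Fin.sum_univ_three, Matrix.of_apply, Matrix.cons_val',
        Matrix.cons_val_zero, Matrix.cons_val_one, Matrix.cons_val,
        Matrix.cons_val_fin_one, Matrix.one_apply, Fin.zero_eta, Fin.mk_one, Fin.reduceFinMk,
        Fin.isValue, Fin.reduceEq, if_true, if_false, zero_ne_one, one_ne_zero]
    · linear_combination hF + 2 * F * xx
    · linear_combination F * xy
    · linear_combination F * xt
    · linear_combination 2 * F * xt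
    · linear_combination hF + 2 * F * yt
    · linear_combination 4 * F * tt
    · linear_combination 2 * F * xy - 4 * F * x ^ 4 * xt
    · linear_combination 4 * F * yy - 4 * F * x ^ 4 * yt
    · linear_combination hF + 2 * F * yt - 8 * F * x ^ 4 * tt
  have hJM : J * M = 1 := mul_eq_one_comm.mp hMJ
  have c0 := congrFun (congrFun hJM 0) 2
  have c1 := congrFun (congrFun hJM 1) 2
  have c2 := congrFun (congrFun hJM 2) 2
  simp only [M, J, Matrix.mul_apply, Fin.sum_univ_three, Matrix.of_apply, Matrix.cons_val',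
        Matrix.cons_val_zero, Matrix.cons_val_one, Matrix.cons_val,
        Matrix.cons_val_fin_one, Matrix.one_apply, Fin.zero_eta, Fin.mk_one, Fin.reduceFinMk,
        Fin.isValue, Fin.reduceEq, if_true, if_false, zero_ne_one, one_ne_zero] at c0 c1 c2
  refine ⟨?_, ?_, ?_⟩
  · linear_combination c0
  · linear_combination c1
  · linear_combination c2

theorem main {P Q T E Hh Hd Ei : Sm U} (h : Rel P Q T E Hh Hd) (hE : E * Ei = 1)
    (hx : ∀ q : U, (X 0 : Sm U).1 q ≠ 0) (q : U) : False := by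
  set x : Sm U := X 0 with hxdef
  have dx0 : D 0 x = 1 := by rw [hxdef, D_X]; rfl
  have dx1 : D 1 x = 0 := by rw [hxdef, D_X]; rfl
  have dx2 : D 2 x = 0 := by rw [hxdef, D_X]; rfl
  let i2 : Sm U := algebraMap ℝ (Sm U) (1 / 2)
  have hi2 : i2 * 2 = 1 := by
    apply Sm_ext
    intro q
    change (1 / 2 : ℝ) * 2 = 1
    norm_num
  let F : Sm U := i2 * Ei
  have hF : F * (2 * E) = 1 := by
    change i2 * Ei * (2 * E) = 1
    linear_combination Ei * E * hi2 + hE
  have hE0 : ∀ q : U, E.1 q ≠ 0 := by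
    intro q hq
    have h1 : E.1 q * Ei.1 q = 1 := congrFun (congrArg Subtype.val hE) q
    rw [hq, zero_mul] at h1
    exact zero_ne_one h1
  have hF0 : ∀ q : U, F.1 q ≠ 0 := by
    intro q hq
    have h1 : F.1 q * (2 * E.1 q) = 1 := congrFun (congrArg Subtype.val hF) q
    rw [hq, zero_mul] at h1
    exact zero_ne_one h1
  obtain ⟨k1, k2, k3⟩ := inverse h hF
  set K0 : Sm U := F * D 0 Q with hK0
  set K1 : Sm U := F * (2 * D 2 Q) with hK1
  set K2 : Sm U := F * (2 * D 1 Q - 4 * x ^ 4 * D 2 Q) with hK2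
  have L := lie P Q T Hh Hd K0 K1 K2 h.dH k1 k2 k3
  have G00 : GG P Q T (P ^ 3 + Hh * P) 0 0 = 2 * E := by
    unfold GG; linear_combination 2 * h.xx
  have G11 : GG P Q T (P ^ 3 + Hh * P) 1 1 = 2 * E * x ^ 4 := by
    unfold GG; linear_combination 2 * h.yy
  have G22 : GG P Q T (P ^ 3 + Hh * P) 2 2 = 0 := by
    unfold GG; linear_combination 2 * h.tt
  have G01 : GG P Q T (P ^ 3 + Hh * P) 0 1 = 0 := by
    unfold GG; linear_combination h.xy
  have G10 : GG P Q T (P ^ 3 + Hh * P) 1 0 = 0 := by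
    unfold GG; linear_combination h.xy
  have G02 : GG P Q T (P ^ 3 + Hh * P) 0 2 = 0 := by
    unfold GG; linear_combination h.xt
  have G20 : GG P Q T (P ^ 3 + Hh * P) 2 0 = 0 := by
    unfold GG; linear_combination h.xt
  have G12 : GG P Q T (P ^ 3 + Hh * P) 1 2 = E := by
    unfold GG; linear_combination h.yt
  have G21 : GG P Q T (P ^ 3 + Hh * P) 2 1 = E := by
    unfold GG; linear_combination h.yt
  have L00 := L 0 0
  have L11 := L 1 1
  have L22 := L 2 2
  have L01 := L 0 1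
  have L02 := L 0 2
  have L12 := L 1 2
  simp only [G00, G11, G22, G01, G10, G02, G20, G12, G21, D_zero, mul_zero, zero_mul, add_zero,
    zero_add, D_mul, D_ofNat, D_pow, dx0, dx1, dx2] at L00 L11 L22 L01 L02 L12
  have c2E : ∀ f : Sm U, 2 * E * f = 0 → f = 0 := by
    intro f hf
    have : F * (2 * E) * f = 0 := by linear_combination F * hf
    rwa [hF, one_mul] at this
  -- the conformal Killing equations
  set l : Sm U := -(Ei * (K0 * D 0 E + K1 * D 1 E + K2 * D 2 E)) with hl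
  have tt : D 2 K1 = 0 := c2E _ (by linear_combination L22)
  have hEF : ∀ f : Sm U, E * f = 0 → f = 0 := by
    intro f hf
    have : E * Ei * f = 0 := by linear_combination Ei * hf
    rwa [hE, one_mul] at this
  have hEl : E * l = -(K0 * D 0 E + K1 * D 1 E + K2 * D 2 E) := by
    rw [hl]
    linear_combination -(K0 * D 0 E + K1 * D 1 E + K2 * D 2 E) * hE
  have xx : 2 * D 0 K0 = l := by
    have : 2 * E * (2 * D 0 K0 - l) = 0 := by linear_combination L00 - 2 * hEl
    linear_combination c2E _ this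
  have tx : D 0 K1 + 2 * D 2 K0 = 0 := hEF _ (by linear_combination L02)
  have ty : D 1 K1 + D 2 K2 = l := by
    have : E * (D 1 K1 + D 2 K2 - l) = 0 := by
      linear_combination L12 - hEl - 2 * E * x ^ 4 * tt
    linear_combination hEF _ this
  have xy : 2 * D 1 K0 + D 0 K2 + 2 * x ^ 4 * D 0 K1 = 0 :=
    hEF _ (by linear_combination L01)
  have yy : K0 * (4 * x ^ 3) + D 1 K2 + 2 * x ^ 4 * D 1 K1 = l * x ^ 4 := by
    have : 2 * E * (K0 * (4 * x ^ 3) + D 1 K2 + 2 * x ^ 4 * D 1 K1 - l * x ^ 4) = 0 := by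
      push_cast at L11
      norm_num at L11
      linear_combination L11 - 2 * x ^ 4 * hEl
    linear_combination c2E _ this
  have nul : K0 * K0 + K1 * K2 + x ^ 4 * (K1 * K1) = 0 := by
    rw [hK0, hK1, hK2]
    rw [hK0, hK1, hK2] at k2
    linear_combination F * k2
  obtain ⟨A0, X0, T0⟩ := killing_step hx tt xx tx ty xy yy nul
  have Qt : D 2 Q = 0 := by
    apply cancel hF0
    apply cancel (a := 2) (fun q => by change (2 : ℝ) ≠ 0; norm_num)
    rw [hK1] at A0
    linear_combination A0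
  have Qx : D 0 Q = 0 := cancel hF0 (by rw [hK0] at X0; exact X0)
  -- `E` does not depend on `x`
  have hQy : ∀ q : U, (D 1 Q).1 q ≠ 0 := by
    intro q hq
    apply hE0 q
    have h1 : D 2 T * D 1 Q = E := by
      have := h.yt
      have h0 := h.tt
      rw [Qt] at this h0
      have Pt : D 2 P = 0 := sq_eq_zero' (by linear_combination h0)
      rw [Pt] at this
      linear_combination this
    have h2 : (D 2 T).1 q * (D 1 Q).1 q = E.1 q := congrFun (congrArg Subtype.val h1) q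
    rw [← h2, hq, mul_zero]
  have Fx : D 0 F = 0 := by
    have Qxy : D 0 (D 1 Q) = 0 := by rw [D_comm, Qx, D_zero]
    have h1 : K2 = F * (2 * D 1 Q) := by rw [hK2, Qt]; ring
    rw [h1] at T0
    simp only [D_mul, D_ofNat, Qxy, mul_zero, zero_mul, add_zero, zero_add] at T0
    apply cancel hQy
    apply cancel (a := 2) (fun q => by change (2 : ℝ) ≠ 0; norm_num)
    linear_combination T0
  have Ex : D 0 E = 0 := by
    have h1 := congrArg (D 0) hF
    simp only [D_mul, D_ofNat, D_one, Fx, mul_zero, zero_mul, add_zero, zero_add] at h1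
    apply cancel hF0
    apply cancel (a := 2) (fun q => by change (2 : ℝ) ≠ 0; norm_num)
    linear_combination h1
  exact final_step h hE0 Qx Qt Ex q

end Pool.Agent.Q185.CKF
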