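import Pool.Agent.Q185.CKF.Defs
import Pool.Agent.Q185.CKF.Kill

set_option autoImplicit false
set_option linter.unusedSimpArgs false
set_option linter.unusedVariables false

/-! # The metric `dt dy + dx² + x⁴ dy²` -/

namespace Pool.Agent.Q185.CKF

open Pool.Agent.Q185.DR
open scoped ContDiff

/-- The metric `(1/2)(dt⊗dy + dy⊗dt) + dx² + x⁴ dy²`. -/
noncomputable def g4 : Field := fun p => !![1, 0, 0; 0, p 0 ^ 4, 1 / 2; 0, 1 / 2, 0]

theorem pd_const (i : Fin 3) (c : ℝ) (p : Fin 3 → ℝ) : pd i (fun _ => c) p = 0 := by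
  unfold pd
  rw [fderiv_const_apply]
  rfl

theorem pd_pow (i : Fin 3) (c : ℝ) (n : ℕ) (p : Fin 3 → ℝ) :
    pd i (fun q => c * q 0 ^ (n + 1)) p = if i = 0 then c * ((n + 1) * p 0 ^ n) else 0 := by
  unfold pd
  have h : HasFDerivAt (fun q : Fin 3 → ℝ => q 0)
      (ContinuousLinearMap.proj (R := ℝ) (φ := fun _ : Fin 3 => ℝ) 0) p :=
    (ContinuousLinearMap.proj (R := ℝ) (φ := fun _ : Fin 3 => ℝ) 0).hasFDerivAt
  have h2 := (h.pow (n + 1)).const_mul c
  rw [h2.fderiv]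
  fin_cases i
  · simp
  · simp
  · simp

theorem pd_pow' (i : Fin 3) (n : ℕ) (p : Fin 3 → ℝ) :
    pd i (fun q => q 0 ^ (n + 1)) p = if i = 0 then ((n + 1) * p 0 ^ n) else 0 := by
  have := pd_pow i 1 n p
  simpa only [one_mul] using this

theorem g4_inv (p : Fin 3 → ℝ) :
    (g4 p)⁻¹ = !![1, 0, 0; 0, 0, 2; 0, 2, -4 * p 0 ^ 4] := by
  apply Matrix.inv_eq_right_inv
  unfold g4
  ext i j
  fin_cases i <;> fin_cases j <;> simp [Matrix.mul_apply, Fin.sum_univ_three] <;> ring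

/-- Explicit Christoffel symbols. -/
noncomputable def cex (k i j : Fin 3) (p : Fin 3 → ℝ) : ℝ :=
  if k = 0 ∧ i = 1 ∧ j = 1 then -2 * p 0 ^ (2 + 1) else
    if k = 2 ∧ i = 0 ∧ j = 1 then 4 * p 0 ^ (2 + 1) else
      if k = 2 ∧ i = 1 ∧ j = 0 then 4 * p 0 ^ (2 + 1) else 0

theorem pd_g4 (a i j : Fin 3) (p : Fin 3 → ℝ) :
    pd a (fun q => g4 q i j) p = if a = 0 ∧ i = 1 ∧ j = 1 then 4 * p 0 ^ 3 else 0 := by
  have h : (fun q : Fin 3 → ℝ => q 0 ^ 4) = fun q => q 0 ^ (3 + 1) := rfl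
  fin_cases i <;> fin_cases j <;> simp [g4, pd_const, h, pd_pow'] <;> norm_num

theorem chr_g4 (k i j : Fin 3) : christoffel g4 k i j = cex k i j := by
  funext p
  unfold christoffel
  simp only [pd_g4, g4_inv, Fin.sum_univ_three, cex]
  fin_cases k <;> fin_cases i <;> fin_cases j <;> simp <;> ring

theorem pd_cex (a k i j : Fin 3) (p : Fin 3 → ℝ) : pd a (cex k i j) p =
    if a = 0 ∧ k = 0 ∧ i = 1 ∧ j = 1 then -6 * p 0 ^ 2 else
    if a = 0 ∧ k = 2 ∧ i = 0 ∧ j = 1 then 12 * p 0 ^ 2 else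
      if a = 0 ∧ k = 2 ∧ i = 1 ∧ j = 0 then 12 * p 0 ^ 2 else 0 := by
  unfold cex
  by_cases h1 : k = 0 ∧ i = 1 ∧ j = 1
  · simp only [h1, and_self, if_true]
    rw [pd_pow]
    by_cases ha : a = 0 <;> simp [ha] <;> ring
  · by_cases h2 : k = 2 ∧ i = 0 ∧ j = 1
    · simp only [h2, and_self, if_true]
      have : ¬ ((2 : Fin 3) = 0 ∧ (0 : Fin 3) = 1 ∧ True) := by simp
      simp
      rw [pd_pow]
      by_cases ha : a = 0 <;> simp [ha] <;> ring
    · by_cases h3 : k = 2 ∧ i = 1 ∧ j = 0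
      · simp only [h3, and_self, if_true]
        simp
        rw [pd_pow]
        by_cases ha : a = 0 <;> simp [ha] <;> ring
      · simp only [h1, h2, h3, if_false, and_false, pd_const]

theorem ricci_g4 (i j : Fin 3) : ricci g4 i j =
    fun p => if i = 1 ∧ j = 1 then -6 * p 0 ^ (1 + 1) else 0 := by
  funext p
  unfold ricci
  simp only [chr_g4, pd_cex, Fin.sum_univ_three, cex]
  fin_cases i <;> fin_cases j <;> simp

theorem scal_g4 (p : Fin 3 → ℝ) : scal g4 p = 0 := by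
  unfold scal
  simp only [ricci_g4, g4_inv, Fin.sum_univ_three]
  simp

theorem schouten_g4 (i j : Fin 3) : schouten g4 i j =
    fun p => if i = 1 ∧ j = 1 then -6 * p 0 ^ (1 + 1) else 0 := by
  funext p
  unfold schouten
  rw [scal_g4, ricci_g4]
  ring

theorem pd_sch (a b c : Fin 3) (p : Fin 3 → ℝ) :
    pd a (fun p => if b = 1 ∧ c = 1 then -6 * p 0 ^ (1 + 1) else 0) p =
      if a = 0 ∧ b = 1 ∧ c = 1 then -12 * p 0 else 0 := by
  by_cases h : b = 1 ∧ c = 1
  · simp only [h, and_self, if_true, and_true]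
    rw [pd_pow]
    by_cases ha : a = 0
    · simp only [ha, if_true]
      push_cast
      ring
    · simp only [ha, if_false]
  · simp only [h, and_false, if_false, pd_const]

theorem cov_g4 (a b c : Fin 3) (p : Fin 3 → ℝ) : covSchouten g4 a b c p =
    if a = 0 ∧ b = 1 ∧ c = 1 then -12 * p 0 else 0 := by
  unfold covSchouten
  simp only [chr_g4, schouten_g4, Fin.sum_univ_three, cex, pd_sch]
  fin_cases b <;> fin_cases c <;> fin_cases a <;> simp

theorem cotton_g4 (c a b : Fin 3) (p : Fin 3 → ℝ) : cotton g4 c a b p =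
    (if a = 0 ∧ b = 1 ∧ c = 1 then -12 * p 0 else 0) -
      (if b = 0 ∧ a = 1 ∧ c = 1 then -12 * p 0 else 0) := by
  unfold cotton
  rw [cov_g4, cov_g4]

theorem cotton_iff (p : Fin 3 → ℝ) : CottonNonzeroAt g4 p ↔ p 0 ≠ 0 := by
  constructor
  · rintro ⟨c, a, b, h⟩ h0
    apply h
    rw [cotton_g4, h0]
    simp
  · intro h
    refine ⟨1, 0, 1, ?_⟩
    rw [cotton_g4]
    simpa using h

theorem dense_g4 : Dense {p | CottonNonzeroAt g4 p} := by
  have h : {p | CottonNonzeroAt g4 p} = (fun p : Fin 3 → ℝ => p 0) ⁻¹' {0}ᶜ := by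
    ext p
    exact cotton_iff p
  rw [h]
  exact (dense_compl_singleton (0 : ℝ)).preimage (isOpenMap_eval 0)

theorem lor_g4 : IsLorentzian g4 := by
  refine ⟨?_, fun p => ⟨?_, ?_⟩⟩
  · intro i j
    have h : ContDiff ℝ ∞ fun p : Fin 3 → ℝ => p 0 ^ 4 := by fun_prop
    fin_cases i <;> fin_cases j <;> simp [g4] <;> first | exact contDiff_const | exact h
  · unfold g4
    ext i j
    fin_cases i <;> fin_cases j <;> simp
  · refine ⟨!![0, 0, 1; 1, 1, 0; -1 - p 0 ^ 4, 1 - p 0 ^ 4, 0], ?_, ?_⟩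
    · rw [isUnit_iff_ne_zero, Matrix.det_fin_three]
      simp
    · unfold g4
      ext i j
      fin_cases i <;> fin_cases j <;>
        simp [Matrix.mul_apply, Fin.sum_univ_three, Matrix.diagonal] <;> ring

/-- The normal conformal Killing field `∂_t`. -/
def kt : (Fin 3 → ℝ) → Fin 3 → ℝ := fun _ => ![0, 0, 1]

theorem normal_kt : IsNormalConformalKilling g4 kt := by
  refine ⟨⟨contDiff_const, fun _ => 0, contDiff_const, ?_⟩, ?_⟩
  · intro p i j
    simp only [pd_g4, kt, pd_const, Fin.sum_univ_three]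
    simp
  · intro p a b
    simp only [cotton_g4, kt, Fin.sum_univ_three]
    simp

theorem not_conf (p : Fin 3 → ℝ) (hp : p 0 ≠ 0) (h : ℝ → ℝ) (hh : ContDiff ℝ ∞ h) :
    ¬ LocallyConformalAt g4 (gh h) p := by
  rintro ⟨φ, hpφ, hφ, -, u, hu, hrel⟩
  have hopen : IsOpen (φ.source ∩ {q : Fin 3 → ℝ | q 0 ≠ 0}) :=
    φ.open_source.inter (isOpen_ne_fun (continuous_apply 0) continuous_const)
  let U : TopologicalSpace.Opens (Fin 3 → ℝ) := ⟨_, hopen⟩
  have hUs : (U : Set (Fin 3 → ℝ)) ⊆ φ.source := Set.inter_subset_left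
  have hcomp : ∀ i, ContDiffOn ℝ ∞ (fun q => φ q i) U := fun i =>
    (contDiff_apply ℝ ℝ i).comp_contDiffOn (hφ.mono hUs)
  let P : Sm U := res (fun q => φ q 0) (hcomp 0)
  let Q : Sm U := res (fun q => φ q 1) (hcomp 1)
  let T : Sm U := res (fun q => φ q 2) (hcomp 2)
  let E : Sm U := res (fun q => Real.exp (2 * u q))
    (Real.contDiff_exp.comp_contDiffOn (contDiffOn_const.mul (hu.mono hUs)))
  let Ei : Sm U := res (fun q => Real.exp (-(2 * u q)))
    (Real.contDiff_exp.comp_contDiffOn (contDiffOn_const.mul (hu.mono hUs)).neg)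
  have hE : E * Ei = 1 := by
    apply Sm_ext
    intro q
    change Real.exp (2 * u q) * Real.exp (-(2 * u q)) = 1
    rw [← Real.exp_add, add_neg_cancel, Real.exp_zero]
  have hdiff : ∀ q : U, DifferentiableAt ℝ φ q := fun q =>
    (hφ.contDiffAt (φ.open_source.mem_nhds (hUs q.2))).differentiableAt (by simp)
  have hD : ∀ (i k : Fin 3) (q : U), (D i (res (fun q => φ q k) (hcomp k))).1 q =
      fderiv ℝ φ q (Pi.single i 1) k := by
    intro i k q
    rw [D_res]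
    have h1 := (ContinuousLinearMap.proj (R := ℝ) (φ := fun _ : Fin 3 => ℝ) k).hasFDerivAt.comp
      (q : Fin 3 → ℝ) (hdiff q).hasFDerivAt
    have h2 : fderiv ℝ (fun q => φ q k) q =
      (ContinuousLinearMap.proj (R := ℝ) (φ := fun _ : Fin 3 => ℝ) k).comp (fderiv ℝ φ q) :=
      h1.fderiv
    rw [h2]
    rfl
  have key : ∀ (i j : Fin 3) (q : U),
      1 / 2 * ((D i T).1 q * (D j Q).1 q + (D j T).1 q * (D i Q).1 q) +
        (D i P).1 q * (D j P).1 q + (P.1 q ^ 3 + h (Q.1 q) * P.1 q) * ((D i Q).1 q * (D j Q).1 q) =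
      E.1 q * g4 q i j := by
    intro i j q
    have h1 := hrel q (hUs q.2) (Pi.single i 1) (Pi.single j 1)
    have h2 : (Pi.single i 1 : Fin 3 → ℝ) ⬝ᵥ (g4 q).mulVec (Pi.single j 1) = g4 q i j := by
      simp
    rw [h2] at h1
    change _ = Real.exp (2 * u q) * g4 q i j
    rw [← h1]
    simp only [P, Q, T, hD]
    simp only [gh, dotProduct, Matrix.mulVec, Fin.sum_univ_three, res_apply]
    simp
    ring
  have hR : Rel P Q T E (comp h hh Q)
      (comp (deriv h) ((contDiff_infty_iff_deriv.mp hh).2) Q) := by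
    refine ⟨fun i => D_comp i h hh Q, ?_, ?_, ?_, ?_, ?_, ?_⟩ <;> apply Sm_ext <;> intro q
    · have h1 := key 0 0 q
      have h2 : g4 q 0 0 = 1 := by simp [g4]
      rw [h2] at h1
      change (D 0 T).1 q * (D 0 Q).1 q + (D 0 P).1 q * (D 0 P).1 q +
        (P.1 q ^ 3 + (comp h hh Q).1 q * P.1 q) * ((D 0 Q).1 q * (D 0 Q).1 q) = E.1 q
      rw [comp_apply]
      linear_combination h1
    · have h1 := key 1 1 q
      have h2 : g4 q 1 1 = q.1 0 ^ 4 := by simp [g4]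
      rw [h2] at h1
      change (D 1 T).1 q * (D 1 Q).1 q + (D 1 P).1 q * (D 1 P).1 q +
        (P.1 q ^ 3 + (comp h hh Q).1 q * P.1 q) * ((D 1 Q).1 q * (D 1 Q).1 q) =
          E.1 q * q.1 0 ^ 4
      rw [comp_apply]
      linear_combination h1
    · have h1 := key 2 2 q
      have h2 : g4 q 2 2 = 0 := by simp [g4]
      rw [h2] at h1
      change (D 2 T).1 q * (D 2 Q).1 q + (D 2 P).1 q * (D 2 P).1 q +
        (P.1 q ^ 3 + (comp h hh Q).1 q * P.1 q) * ((D 2 Q).1 q * (D 2 Q).1 q) = 0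
      rw [comp_apply]
      linear_combination h1
    · have h1 := key 0 1 q
      have h2 : g4 q 0 1 = 0 := by simp [g4]
      rw [h2] at h1
      change (D 0 T).1 q * (D 1 Q).1 q + (D 1 T).1 q * (D 0 Q).1 q +
        2 * ((D 0 P).1 q * (D 1 P).1 q) +
        2 * ((P.1 q ^ 3 + (comp h hh Q).1 q * P.1 q) * ((D 0 Q).1 q * (D 1 Q).1 q)) = 0
      rw [comp_apply]
      linear_combination 2 * h1
    · have h1 := key 0 2 q
      have h2 : g4 q 0 2 = 0 := by simp [g4]
      rw [h2] at h1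
      change (D 0 T).1 q * (D 2 Q).1 q + (D 2 T).1 q * (D 0 Q).1 q +
        2 * ((D 0 P).1 q * (D 2 P).1 q) +
        2 * ((P.1 q ^ 3 + (comp h hh Q).1 q * P.1 q) * ((D 0 Q).1 q * (D 2 Q).1 q)) = 0
      rw [comp_apply]
      linear_combination 2 * h1
    · have h1 := key 1 2 q
      have h2 : g4 q 1 2 = 1 / 2 := by simp [g4]
      rw [h2] at h1
      change (D 1 T).1 q * (D 2 Q).1 q + (D 2 T).1 q * (D 1 Q).1 q +
        2 * ((D 1 P).1 q * (D 2 P).1 q) +
        2 * ((P.1 q ^ 3 + (comp h hh Q).1 q * P.1 q) * ((D 1 Q).1 q * (D 2 Q).1 q)) = E.1 q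
      rw [comp_apply]
      linear_combination 2 * h1
  exact main hR hE (fun q => q.2.2) ⟨p, hpφ, hp⟩

end Pool.Agent.Q185.CKF
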